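import Pool.Agent.R972.SE0.Main

/-!
# Weakly convergent random closed sets have weakly convergent selections

No convexity is assumed. The random closed sets may live on different probability spaces.
-/

set_option autoImplicit false

open MeasureTheory Pool.Agent.R972.SE0

namespace Pool.Agent.Results.MP_eb9ef7_pr.SelectionsConverge

universe u v w

theorem result {E : Type u} [NormedAddCommGroup E] [NormedSpace ℝ E] [CompleteSpace E]
    [SecondCountableTopology E] [MeasurableSpace E] [BorelSpace E]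
    {Ω : ℕ → Type v} {Ω' : Type w} [∀ n, MeasurableSpace (Ω n)] [MeasurableSpace Ω']
    (P : ∀ n, Measure (Ω n)) (P' : Measure Ω') [∀ n, IsProbabilityMeasure (P n)]
    [IsProbabilityMeasure P'] (X : ∀ n, Ω n → Set E) (X' : Ω' → Set E)
    (hX : ∀ n, IsRandomClosedSet (X n)) (hX' : IsRandomClosedSet X')
    (hne : ∀ n, ∀ᵐ ω ∂(P n), (X n ω).Nonempty) (hne' : ∀ᵐ ω ∂P', (X' ω).Nonempty)
    (hconv : SetsConverge P X P' X') :
    ∃ (ξ : ∀ n, Ω n → E) (ξ' : Ω' → E), (∀ n, IsSelection (P n) (X n) (ξ n)) ∧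
      IsSelection P' X' ξ' ∧ ConvergeInLaw P ξ P' ξ' :=
  main hX hX' hne hne' hconv

end Pool.Agent.Results.MP_eb9ef7_pr.SelectionsConverge
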